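import Pool.Agent.SLM.Proper

/-!
# MP_8b2a7f_lc: monotone unbounded functions `h` (helper54): the theorem
-/

set_option autoImplicit false

namespace SLM

open CofSN CpB Cardinal

section

variable {Θ : Type}

theorem decide_br (ρ : Θ) (n : ℕ) (p : Po Θ ℕ) : ∃ q ≤ p, q ∈ br ρ n ∨ q ∈ (br ρ n)ᶜ := by
  by_cases h : p ∈ (br ρ n)ᶜ
  · exact ⟨p, le_rfl, Or.inr h⟩
  · rw [RO.mem_compl] at h
    push Not at h
    obtain ⟨q, hq, h1⟩ := h
    exact ⟨q, hq, Or.inl h1⟩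

/-! ### The monotone function of a branch -/

/-- the conditions which force that `h(n) = k`; here `h(n) = ph j`, `j` is the successor of the
last number `i ≤ n` which is the code of an initial segment of the branch -/
def hR (ρ : Θ) (n k : ℕ) : Set (Po Θ ℕ) :=
  {p | ∃ j ≤ n + 1, k = ph j ∧ (∀ i, j = i + 1 → p ∈ br ρ i) ∧
    ∀ i, j ≤ i → i ≤ n → p ∈ (br ρ i)ᶜ}

theorem hR_down {ρ : Θ} (n k : ℕ) (p q : Po Θ ℕ) (hq : q ≤ p) (h : p ∈ hR ρ n k) :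
    q ∈ hR ρ n k := by
  obtain ⟨j, hj, hk, h1, h2⟩ := h
  exact ⟨j, hj, hk, fun i hi => RO.mem_down (h1 i hi) hq,
    fun i h3 h4 => RO.mem_down (h2 i h3 h4) hq⟩

theorem exists_hR (ρ : Θ) (n : ℕ) : ∀ p : Po Θ ℕ, ∃ q ≤ p, ∃ j ≤ n + 1,
    (∀ i, j = i + 1 → q ∈ br ρ i) ∧ ∀ i, j ≤ i → i ≤ n → q ∈ (br ρ i)ᶜ := by
  induction n with
  | zero =>
    intro p
    obtain ⟨q, hq, h | h⟩ := decide_br ρ 0 p
    · refine ⟨q, hq, 1, le_rfl, ?_, ?_⟩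
      · intro i hi
        have : i = 0 := by omega
        rw [this]
        exact h
      · intro i h1 h2
        omega
    · refine ⟨q, hq, 0, by omega, ?_, ?_⟩
      · intro i hi
        omega
      · intro i _ h2
        have : i = 0 := by omega
        rw [this]
        exact h
  | succ n ih =>
    intro p
    obtain ⟨q, hq, j, hj, h1, h2⟩ := ih p
    obtain ⟨q', hq', h | h⟩ := decide_br ρ (n + 1) q
    · refine ⟨q', hq'.trans hq, n + 2, le_rfl, ?_, ?_⟩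
      · intro i hi
        have : i = n + 1 := by omega
        rw [this]
        exact h
      · intro i h3 h4
        omega
    · refine ⟨q', hq'.trans hq, j, by omega, fun i hi => RO.mem_down (h1 i hi) hq', ?_⟩
      intro i h3 h4
      rcases Nat.lt_or_ge i (n + 1) with h5 | h5
      · exact RO.mem_down (h2 i h3 (by omega)) hq'
      · have : i = n + 1 := by omega
        rw [this]
        exact h

theorem hR_uniq {ρ : Θ} {n j j' : ℕ} {p : Po Θ ℕ} (hj : j ≤ n + 1) (hj' : j' ≤ n + 1)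
    (h1 : ∀ i, j = i + 1 → p ∈ br ρ i) (h1' : ∀ i, j' = i + 1 → p ∈ br ρ i)
    (h2 : ∀ i, j ≤ i → i ≤ n → p ∈ (br ρ i)ᶜ) (h2' : ∀ i, j' ≤ i → i ≤ n → p ∈ (br ρ i)ᶜ) :
    j = j' := by
  rcases Nat.lt_trichotomy j j' with h | h | h
  · obtain ⟨i, rfl⟩ : ∃ i, j' = i + 1 := ⟨j' - 1, by omega⟩
    exact absurd (h1' i rfl) (h2 i (by omega) (by omega) p le_rfl)
  · exact h
  · obtain ⟨i, rfl⟩ : ∃ i, j = i + 1 := ⟨j - 1, by omega⟩
    exact absurd (h1 i rfl) (h2' i (by omega) (by omega) p le_rfl)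

/-- the name of the function `h` of the branch -/
def hm (ρ : Θ) : Fun (RO (Po Θ ℕ)) ℕ ℕ :=
  Fun.mk' (hR ρ) hR_down
    (fun n k k' p ⟨j, hj, hk, h1, h2⟩ ⟨j', hj', hk', h1', h2'⟩ => by
      rw [hk, hk', hR_uniq hj hj' h1 h1' h2 h2'])
    (fun n p => by
      obtain ⟨q, hq, j, hj, h1, h2⟩ := exists_hR ρ n p
      exact ⟨q, hq, ph j, j, hj, rfl, h1, h2⟩)

theorem mem_hm {ρ : Θ} {n k : ℕ} {p : Po Θ ℕ} :
    p ∈ (hm ρ).v n k ↔ ∀ q ≤ p, ∃ r ≤ q, r ∈ hR ρ n k :=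
  mem_gen_down (hR_down n k)

theorem mem_hm_of {ρ : Θ} {n k : ℕ} {p : Po Θ ℕ} (h : p ∈ hR ρ n k) : p ∈ (hm ρ).v n k :=
  mem_gen_of (hR_down n k) h

theorem hm_in {ρ : Θ} {n : ℕ} {p : Po Θ ℕ} (h : p ∈ br ρ n) : p ∈ (hm ρ).v n (ph (n + 1)) := by
  refine mem_hm_of ⟨n + 1, le_rfl, rfl, ?_, ?_⟩
  · intro i hi
    have : i = n := by omega
    rw [this]
    exact h
  · intro i h1 h2
    omega

theorem hm_out {ρ : Θ} {n k : ℕ} {p : Po Θ ℕ} (h : p ∈ (br ρ n)ᶜ) (hk : p ∈ (hm ρ).v n k) :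
    k ≤ ph n := by
  obtain ⟨r, hr, j, hj, hkj, h1, _⟩ := mem_hm.1 hk p le_rfl
  have h3 : j ≠ n + 1 := fun h4 => absurd (h1 n h4) (RO.mem_down h hr r le_rfl)
  rw [hkj]
  exact ph_mono (by omega)

theorem isMono_hm (ρ : Θ) : isMono (hm ρ) = ⊤ := by
  rw [RO.eq_top_iff']
  intro p
  unfold isMono
  rw [RO.mem_iInf]
  intro n
  refine RO.mem_iSup.2 fun q _ => ?_
  obtain ⟨q1, hq1, j, hj, h1, h2⟩ := exists_hR ρ n q
  have h3 : ∃ q2 ≤ q1, ∃ k, ph j ≤ k ∧ q2 ∈ (hm ρ).v (n + 1) k := by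
    obtain ⟨q2, hq2, h | h⟩ := decide_br ρ (n + 1) q1
    · exact ⟨q2, hq2, ph (n + 2), ph_mono (by omega), hm_in h⟩
    · refine ⟨q2, hq2, ph j, le_rfl, mem_hm_of ⟨j, by omega, rfl,
        fun i hi => RO.mem_down (h1 i hi) hq2, ?_⟩⟩
      intro i h3 h4
      rcases Nat.lt_or_ge i (n + 1) with h5 | h5
      · exact RO.mem_down (h2 i h3 (by omega)) hq2
      · have : i = n + 1 := by omega
        rw [this]
        exact h
  obtain ⟨q2, hq2, k, hk, h4⟩ := h3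
  have h5 : q2 ∈ (hm ρ).v n (ph j) :=
    RO.mem_down (mem_hm_of ⟨j, hj, rfl, h1, h2⟩ : q1 ∈ (hm ρ).v n (ph j)) hq2
  exact ⟨q2, hq2.trans hq1, ph j, RO.mem_iSup.2 fun w hw => ⟨w, le_rfl, k,
    RO.mem_iSup.2 fun v hv => ⟨v, le_rfl, hk, RO.mem_down h5 (hv.trans hw),
      RO.mem_down h4 (hv.trans hw)⟩⟩⟩

theorem isUnbounded_hm (ρ : Θ) : isUnbounded (hm ρ) = ⊤ := by
  rw [RO.eq_top_iff']
  intro p
  unfold isUnbounded
  rw [RO.mem_iInf]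
  intro m
  refine RO.mem_iSup.2 fun q _ => ?_
  obtain ⟨m', hm'⟩ := exists_code ρ q m
  obtain ⟨q1, hq1, h1, _⟩ := exists_branch ρ q m'
  have h2 : q1 ∈ br ρ (cd (bl ρ q m')) := by
    unfold br
    rw [tl_cd]
    exact h1
  refine ⟨q1, hq1, cd (bl ρ q m'), RO.mem_iSup.2 fun w hw => ⟨w, le_rfl, _,
    RO.mem_iSup.2 fun v hv => ⟨v, le_rfl, ?_, hm_in (RO.mem_down h2 (hv.trans hw))⟩⟩⟩
  exact (hm'.trans (Nat.le_succ _)).trans (le_ph _)

/-! ### Different branches are almost disjoint -/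

theorem ini_take {P : Type} [Preorder P] {t : List ℕ} {r : Fun (RO P) ℕ ℕ} {p : P}
    (h : p ∈ ini t r) (i : ℕ) : p ∈ ini (t.take i) r := by
  rw [mem_ini]
  rintro ⟨k, hk⟩
  have hk' : k < t.length := by
    rw [List.length_take] at hk
    omega
  have h1 : (t.take i)[k] = t[k] := List.getElem_take
  change p ∈ r.v k ((t.take i)[k])
  rw [h1]
  exact mem_ini.1 h ⟨k, hk'⟩

theorem almost_disjoint {ρ ρ' : Θ} (h : ρ ≠ ρ') (p : Po Θ ℕ) : ∃ q ≤ p, ∃ N, ∀ n, N ≤ n →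
    ∀ w ≤ q, w ∈ br ρ' n → w ∈ (br ρ n)ᶜ := by
  have h0 : p ∉ eqv (rr ρ) (rr ρ') := by
    have : eqv (rr ρ) (rr ρ') = (⊥ : RO (Po Θ ℕ)) := eqv_gs h
    rw [this]
    exact RO.notMem_bot p
  rw [mem_eqv] at h0
  push Not at h0
  obtain ⟨k, q1, hq1, a, a', h1, h2, h3⟩ := h0
  obtain ⟨q2, hq2, t0, ht0, h4⟩ := ini_decide (rr ρ') (k + 1) q1
  refine ⟨q2, hq2.trans hq1, (Finset.range (k + 2)).sup (fun i => cd (t0.take i)) + 1, ?_⟩
  intro n hn w hw hbr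
  have hbr' : w ∈ ini (tl n) (rr ρ') := hbr
  have hlen : k + 1 < (tl n).length := by
    by_contra hcon
    have h5 : w ∈ ini (t0.take (tl n).length) (rr ρ') := RO.mem_down (ini_take h4 _) hw
    have h6 : tl n = t0.take (tl n).length := by
      refine ini_uniq hbr' h5 ?_
      rw [List.length_take]
      omega
    have h7 : n = cd (t0.take (tl n).length) := by rw [← h6, cd_tl]
    have h8 := Finset.le_sup (f := fun i => cd (t0.take i))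
      (Finset.mem_range.2 (show (tl n).length < k + 2 by omega))
    rw [← h7] at h8
    omega
  rw [RO.mem_compl]
  intro v hv h5
  have h5' : v ∈ ini (tl n) (rr ρ) := h5
  have hk : k < (tl n).length := by omega
  have e1 := mem_ini.1 h5' ⟨k, hk⟩
  have e2 := mem_ini.1 hbr' ⟨k, hk⟩
  have hv1 : v ≤ q1 := hv.trans (hw.trans hq2)
  have e3 : a = (tl n)[k] := Fun.uniq (RO.mem_down h1 hv1) e1
  have e4 : a' = (tl n)[k] := Fun.uniq (RO.mem_down h2 hv1) (RO.mem_down e2 hv)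
  exact h3 (e3.trans e4.symm)

/-! ### The ideal of one branch -/

section one

variable {K : Type} [LinearOrder K]

/-- the ideal of a branch -/
noncomputable def JM (ρ : Θ) (e : K × Bool → Θ) (Γ : Set Θ) : (ℕ → RO (Po Θ ℕ)) → RO (Po Θ ℕ) :=
  idl fun (g : {g : Gn Θ K // g.good e Γ}) => g.1.val ρ e

variable {ρ : Θ} {e : K × Bool → Θ} {Γ : Set Θ}

theorem isIdeal_JM (he : Function.Injective e) (hρe : ∀ y, e y ≠ ρ) (hΓe : ∀ y, e y ∉ Γ)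
    (hρΓ : ρ ∉ Γ) : isIdeal (JM ρ e Γ) = ⊤ :=
  isIdeal_idl _ (Gn.proper he hρe hΓe hρΓ)

theorem JM_brn : JM ρ e Γ (fun n => (br ρ n)ᶜ) = ⊤ :=
  idl_gen (fun (g : {g : Gn Θ K // g.good e Γ}) => g.1.val ρ e) ⟨Gn.brn, trivial⟩

theorem JM_cap {α : K} {x : Fun (RO (Po Θ ℕ)) ℕ ℕ} (hx : lev e α x) :
    JM ρ e Γ (fun n => (inn x (SM e α) n)ᶜ) = ⊤ :=
  idl_gen (fun (g : {g : Gn Θ K // g.good e Γ}) => g.1.val ρ e) ⟨Gn.cap α x, hx⟩

theorem JM_coh {α : K} {s : Fun (RO (Po Θ ℕ)) ℕ (Finset ℕ)} (hs : lev e α s) :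
    JM ρ e Γ (fun n => inn (CM e α) s n) = ⊤ :=
  idl_gen (fun (g : {g : Gn Θ K // g.good e Γ}) => g.1.val ρ e) ⟨Gn.coh α s, hs⟩

theorem JM_dif {γ : Θ} {s : Fun (RO (Po Θ ℕ)) ℕ (Finset ℕ)} (hγ : γ ∈ Γ)
    (hs : ∀ n b, Sp {θ | θ ≠ γ} (s.v n b)) : JM ρ e Γ (fun n => innb (DM γ) s n) = ⊤ :=
  idl_gen (fun (g : {g : Gn Θ K // g.good e Γ}) => g.1.val ρ e) ⟨Gn.dif γ s, hγ, hs⟩

/-- the slalom of the position `α` -/
noncomputable def Sb (ρ : Θ) (e : K × Bool → Θ) (α : K) : Fun (RO (Po Θ ℕ)) ℕ (Finset ℕ) :=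
  cond (br ρ) (fun n => n) (SM e α) (gr fun _ => ∅)

omit [LinearOrder K] in
theorem SM_card {α : K} {n : ℕ} {T : Finset ℕ} {p : Po Θ ℕ} (h : p ∈ (SM e α).v n T) :
    T.card ≤ ph (n + 1) := by
  obtain ⟨r, _, s, ⟨m, _, hm⟩, _⟩ := RO.mem_gen.1 h p le_rfl
  rw [← hm]
  exact sig_card _ _

omit [LinearOrder K] in
theorem slalomOf_Sb (ρ : Θ) (e : K × Bool → Θ) (α : K) : slalomOf (hm ρ) (Sb ρ e α) = ⊤ := by
  rw [RO.eq_top_iff']
  intro p
  unfold slalomOf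
  rw [RO.mem_iInf]
  intro n
  refine RO.mem_iSup.2 fun q _ => ?_
  obtain ⟨q1, hq1, h | h⟩ := decide_br ρ n q
  · obtain ⟨q2, hq2, T, hT⟩ := (SM e α).decide n q1
    refine ⟨q2, hq2.trans hq1, ph (n + 1), RO.mem_iSup.2 fun w hw =>
      ⟨w, le_rfl, T, RO.mem_iSup.2 fun w' hw' => ⟨w', le_rfl, SM_card hT, ?_⟩⟩⟩
    have h6 : w' ∈ br ρ n := RO.mem_down h (hw'.trans (hw.trans hq2))
    exact ⟨hm_in h6, mem_cond_in h6 (RO.mem_down hT (hw'.trans hw))⟩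
  · obtain ⟨q2, hq2, k, hk⟩ := (hm ρ).decide n q1
    refine ⟨q2, hq2.trans hq1, k, RO.mem_iSup.2 fun w hw =>
      ⟨w, le_rfl, ∅, RO.mem_iSup.2 fun w' hw' => ⟨w', le_rfl, by simp, ?_⟩⟩⟩
    have h6 : w' ∈ (br ρ n)ᶜ := RO.mem_down h (hw'.trans (hw.trans hq2))
    exact ⟨RO.mem_down hk (hw'.trans hw), mem_cond_out h6 (mem_gr (fun _ => ∅) n w')⟩

theorem JM_Sb (hJ : isIdeal (JM ρ e Γ) = ⊤) {α : K} {x : Fun (RO (Po Θ ℕ)) ℕ ℕ}
    (hx : lev e α x) : JM ρ e Γ (inn x (Sb ρ e α)) = ⊥ := by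
  have h1 := ideal_union hJ (fun n => (br ρ n)ᶜ) (fun n => (inn x (SM e α) n)ᶜ)
  rw [JM_brn, JM_cap hx, top_inf_eq, top_le_iff] at h1
  have h2 := ideal_union hJ (inn x (Sb ρ e α))
    ((fun n => (br ρ n)ᶜ) ⊔ fun n => (inn x (SM e α) n)ᶜ)
  rw [h1, inf_top_eq] at h2
  have h3 : inn x (Sb ρ e α) ⊔ ((fun n => (br ρ n)ᶜ) ⊔ fun n => (inn x (SM e α) n)ᶜ) = ⊤ := by
    funext n
    simp only [Pi.sup_apply, Pi.top_apply]
    rw [← compl_inf, eq_top_iff, ← sup_compl_eq_top (x := br ρ n ⊓ inn x (SM e α) n)]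
    refine sup_le_sup_right ?_ _
    intro p hp
    refine mem_inn.2 fun q hq => ?_
    obtain ⟨q', hq', a, S, haS, h4, h5⟩ := mem_inn.1 hp.2 q hq
    exact ⟨q', hq', a, S, haS, h4, mem_cond_in (RO.mem_down hp.1 (hq'.trans hq)) h5⟩
  rw [h3, ideal_proper hJ] at h2
  exact le_antisymm h2 bot_le

/-- the real which escapes slaloms -/
noncomputable def xe (ρ : Θ) (e : K × Bool → Θ) (α : K) (γ : Θ) : Fun (RO (Po Θ ℕ)) ℕ ℕ :=
  cond (br ρ) (fun n => n) (CM e α) (DM γ)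

theorem JM_same (hJ : isIdeal (JM ρ e Γ) = ⊤) {α : K} {γ : Θ}
    {s : Fun (RO (Po Θ ℕ)) ℕ (Finset ℕ)} (hs : lev e α s) :
    JM ρ e Γ (inn (xe ρ e α γ) s) = ⊤ := by
  have h1 := ideal_union hJ (fun n => (br ρ n)ᶜ) (fun n => inn (CM e α) s n)
  rw [JM_brn, JM_coh hs, top_inf_eq, top_le_iff] at h1
  rw [eq_top_iff, ← h1]
  refine ideal_mono' hJ fun n => ?_
  intro p hp
  rw [Pi.sup_apply, RO.mem_sup]
  intro q hq
  obtain ⟨q1, hq1, h | h⟩ := decide_br ρ n q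
  · refine ⟨q1, hq1, Or.inr (mem_inn.2 fun w hw => ?_)⟩
    obtain ⟨w1, hw1, a, T, haT, h3, h4⟩ := mem_inn.1 hp w (hw.trans (hq1.trans hq))
    obtain ⟨w2, hw2, h5⟩ := mem_cond.1 h3 w1 le_rfl
    refine ⟨w2, hw2.trans hw1, a, T, haT, ?_, RO.mem_down h4 hw2⟩
    rcases h5 with h5 | h5
    · exact h5.2
    · exact absurd (RO.mem_down h (hw2.trans (hw1.trans hw))) (h5.1 w2 le_rfl)
  · exact ⟨q1, hq1, Or.inl h⟩

theorem JM_other {K' : Type} {ρ' : Θ} {e' : K' × Bool → Θ} (hρ : ρ' ≠ ρ)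
    (hJ : isIdeal (JM ρ e Γ) = ⊤) {α' : K'} {γ : Θ} (hγ : γ ∈ Γ)
    {s : Fun (RO (Po Θ ℕ)) ℕ (Finset ℕ)} (hs : ∀ n b, Sp {θ | θ ≠ γ} (s.v n b)) :
    slalomOf (hm ρ') s ≤ JM ρ e Γ (inn (xe ρ' e' α' γ) s) := by
  let R : ℕ → RO (Po Θ ℕ) := fun n => inn (xe ρ' e' α' γ) s n ⊓ br ρ n ⊓ (innb (DM γ) s n)ᶜ
  have hR : slalomOf (hm ρ') s ≤ ⨆ N : ℕ, ⨅ n, ⨅ (_ : N ≤ n), (R n)ᶜ := by
    intro p hp
    refine RO.mem_iSup.2 fun q hq => ?_
    obtain ⟨q1, hq1, N, hN⟩ := almost_disjoint hρ q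
    refine ⟨q1, hq1, N, ?_⟩
    rw [RO.mem_iInf]
    intro n
    rw [RO.mem_iInf]
    intro hn
    rw [RO.mem_compl]
    intro w hw hwR
    have h1 : w ∈ inn (xe ρ' e' α' γ) s n := hwR.1.1
    have h2 : w ∈ br ρ n := hwR.1.2
    have h3 : w ∈ (innb (DM γ) s n)ᶜ := hwR.2
    have h4 := hN n hn w hw h2
    obtain ⟨w1, hw1, a, T, haT, h5, h6⟩ := mem_inn.1 h1 w le_rfl
    obtain ⟨w2, hw2, h7⟩ := mem_cond.1 h5 w1 le_rfl
    have h8 : w2 ∈ (DM γ).v n a := by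
      rcases h7 with h7 | h7
      · exact absurd h7.1 (RO.mem_down h4 (hw2.trans hw1) w2 le_rfl)
      · exact h7.2
    have h10 : w2 ∈ slalomOf (hm ρ') s :=
      RO.mem_down hp (hw2.trans (hw1.trans (hw.trans (hq1.trans hq))))
    unfold slalomOf at h10
    obtain ⟨v1, hv1, j, h11⟩ := RO.mem_iSup.1 (RO.mem_iInf.1 h10 n) w2 le_rfl
    obtain ⟨v2, hv2, T', h12⟩ := RO.mem_iSup.1 h11 v1 le_rfl
    obtain ⟨v3, hv3, hT, h13⟩ := RO.mem_iSup.1 h12 v2 le_rfl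
    have hv : v3 ≤ w2 := hv3.trans (hv2.trans hv1)
    have e2 : T' = T := Fun.uniq h13.2 (RO.mem_down h6 (hv.trans hw2))
    subst e2
    have e3 : j ≤ ph n := hm_out (RO.mem_down h4 (hv.trans (hw2.trans hw1))) h13.1
    refine h3 v3 (hv.trans (hw2.trans hw1)) ?_
    exact mem_innb.2 fun u hu => ⟨u, le_rfl, a, T', ⟨haT, hT.trans e3⟩,
      RO.mem_down h8 (hu.trans hv), RO.mem_down h13.2 hu⟩
  have h1 := ideal_union hJ (fun n => (br ρ n)ᶜ) (fun n => innb (DM γ) s n)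
  rw [JM_brn, JM_dif hγ hs, top_inf_eq, top_le_iff] at h1
  have h2 := ideal_union hJ R ((fun n => (br ρ n)ᶜ) ⊔ fun n => innb (DM γ) s n)
  rw [h1, inf_top_eq] at h2
  refine (hR.trans (ideal_fin hJ R)).trans (h2.trans (ideal_mono' hJ fun n => ?_))
  simp only [Pi.sup_apply, R]
  intro p hp
  rw [RO.mem_sup]
  intro q hq
  obtain ⟨q1, hq1, h | h⟩ := decide_br ρ n q
  · by_cases hc : q1 ∈ (innb (DM γ) s n)ᶜ
    · exact ⟨q1, hq1, Or.inl ⟨⟨RO.mem_down hp (hq1.trans hq), h⟩, hc⟩⟩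
    · rw [RO.mem_compl] at hc
      push Not at hc
      obtain ⟨q2, hq2, h3⟩ := hc
      exact ⟨q2, hq2.trans hq1, Or.inr (RO.mem_sup.2 fun w hw =>
        ⟨w, le_rfl, Or.inr (RO.mem_down h3 hw)⟩)⟩
  · exact ⟨q1, hq1, Or.inr (RO.mem_sup.2 fun w hw =>
      ⟨w, le_rfl, Or.inl (RO.mem_down h hw)⟩)⟩

end one

end

/-! ### The theorem -/

theorem main : ∃ (B : Type) (_ : CompleteBooleanAlgebra B) (Λ : Type) (K : Λ → Type)
    (J : (ℕ → B) → B) (h : Λ → Fun B ℕ ℕ), (⊥ : B) ≠ ⊤ ∧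
    (∀ X Y : Type, ℵ₀ < #Y → #X < #Y → noSurj B X Y = ⊤) ∧
    (∀ l l', l ≠ l' → noSurj B (K l) (K l') ⊔ noSurj B (K l') (K l) = ⊤) ∧
    (∃ y : Λ → Fun B ℕ ℕ, ∀ x, ⨆ l, eqv (y l) x = ⊤) ∧
    isIdeal J = ⊤ ∧ ∀ l, isMono (h l) = ⊤ ∧ isUnbounded (h l) = ⊤ ∧ slEq (h l) J (K l) = ⊤ := by
  classical
  obtain ⟨c, h0, hsl, hfix, hcof⟩ := exists_fix
  obtain ⟨Λ, o, hΛ, ho, hoi⟩ : ∃ (Λ : Type) (o : Λ → Ordinal.{0}), #Λ = c ∧
      (∀ l, o l < c.ord) ∧ ∀ l l', o l = o l' → l = l' :=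
    ⟨c.ord.ToType, fun l => Ordinal.typein (α := c.ord.ToType) (· < ·) l,
      Cardinal.mk_ord_toType c, fun l => Ordinal.typein_lt_self l,
      fun l l' h => Ordinal.typein_injective _ h⟩
  let Θ : Type := Λ ⊕ Λ ⊕ Λ
  have hΘ : #Θ ≤ c := by
    have h1 : #Θ = #Λ + (#Λ + #Λ) := by simp [Θ, Cardinal.mk_sum]
    rw [h1, hΛ, Cardinal.add_eq_self h0.le, Cardinal.add_eq_self h0.le]
  let K : Λ → Type := fun l => (Cardinal.ord (ℵ_ (o l + 1))).ToType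
  have hK : ∀ l, #(K l) = ℵ_ (o l + 1) := fun l => Cardinal.mk_ord_toType _
  have hinf : ∀ l, ℵ₀ < ℵ_ (o l + 1) := by
    intro l
    rw [Cardinal.aleph0_lt_aleph]
    exact Order.lt_add_one_iff.2 zero_le
  have hnames : #(Fun (RO (Po Θ ℕ)) ℕ ℕ) ≤ c := card_names hsl hcof hΘ
  have hns : ∀ X Y : Type, ℵ₀ < #Y → #X < #Y → noSurj (RO (Po Θ ℕ)) X Y = ⊤ := by
    intro X Y hY hXY
    exact noSurj_eq_top (le_refl ℵ₀) Cardinal.mk_nat.le hXY hY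
  have hcofK : ∀ l, Order.cof (K l) = ℵ_ (o l + 1) := by
    intro l
    have hreg : (ℵ_ (o l + 1)).IsRegular := by
      rw [← Cardinal.succ_aleph]
      exact Cardinal.isRegular_succ (Cardinal.aleph0_le_aleph _)
    rw [Ordinal.cof_toType]
    exact hreg.cof_ord
  have hemb : ∀ l, Nonempty (K l × Bool ↪ Λ) := by
    intro l
    have h : #(K l × Bool) ≤ #Λ := by
      rw [Cardinal.mk_prod, Cardinal.lift_id, Cardinal.lift_id, hK, hΛ]
      have h1 : #Bool ≤ c := (Cardinal.mk_le_aleph0 (α := Bool)).trans h0.le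
      exact (mul_le_mul' (hfix _ (ho l)).le h1).trans (Cardinal.mul_eq_self h0.le).le
    exact h
  let e : ∀ l, K l × Bool → Θ := fun l y => Sum.inr (Sum.inl ((hemb l).some y))
  have he : ∀ l, Function.Injective (e l) := by
    intro l y y' h
    exact (hemb l).some.injective (Sum.inl_injective (Sum.inr_injective h))
  let ρ : Λ → Θ := fun l => Sum.inl l
  have hρ : ∀ l l', l ≠ l' → ρ l ≠ ρ l' := fun l l' h h' => h (Sum.inl_injective h')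
  let Γ : Set Θ := Set.range fun l : Λ => (Sum.inr (Sum.inr l) : Θ)
  have hρe : ∀ l y, e l y ≠ ρ l := fun l y h => by simp [e, ρ] at h
  have hΓe : ∀ l y, e l y ∉ Γ := by
    rintro l y ⟨l', h⟩
    have h2 : (Sum.inr l' : Λ ⊕ Λ) = Sum.inl ((hemb l).some y) := Sum.inr_injective h
    simp at h2
  have hρΓ : ∀ l, ρ l ∉ Γ := by
    rintro l ⟨l', h⟩
    simp [ρ] at h
  have hJ : ∀ l, isIdeal (JM (ρ l) (e l) Γ) = ⊤ := fun l =>
    isIdeal_JM (he l) (hρe l) (hΓe l) (hρΓ l)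
  have hΛn : Nonempty Λ := by
    rw [← Cardinal.mk_ne_zero_iff, hΛ]
    exact (Cardinal.aleph0_pos.trans h0).ne'
  let J : (ℕ → RO (Po Θ ℕ)) → RO (Po Θ ℕ) := fun A => ⨅ l, JM (ρ l) (e l) Γ A
  have hJJ : isIdeal J = ⊤ := by
    obtain ⟨l₀⟩ := hΛn
    refine isIdeal_of ?_ ?_ ?_ ?_
    · rw [eq_bot_iff]
      refine (iInf_le _ l₀).trans ?_
      rw [ideal_proper (hJ l₀)]
    · exact fun A => le_iInf fun l => ideal_fin (hJ l) _
    · intro A A'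
      refine le_iInf fun l => ?_
      exact (inf_le_inf le_rfl (iInf_le _ l)).trans (ideal_mono (hJ l) _ _)
    · intro A A'
      refine le_iInf fun l => ?_
      exact (inf_le_inf (iInf_le _ l) (iInf_le _ l)).trans (ideal_union (hJ l) _ _)
  refine ⟨RO (Po Θ ℕ), inferInstance, Λ, K, J, fun l => hm (ρ l), nontriv, hns, ?_, ?_, hJJ,
    fun l => ⟨isMono_hm _, isUnbounded_hm _, ?_⟩⟩
  · intro l l' hl
    have hne : #(K l) ≠ #(K l') := by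
      intro h
      rw [hK, hK] at h
      have h1 := Cardinal.aleph.injective h
      have h2 : o l = o l' := by simpa using h1
      exact hl (hoi l l' h2)
    rcases lt_or_gt_of_ne hne with h | h
    · rw [hns (K l) (K l') (by rw [hK]; exact hinf l') h, top_sup_eq]
    · rw [hns (K l') (K l) (by rw [hK]; exact hinf l) h, sup_top_eq]
  · have h1 : #(Fun (RO (Po Θ ℕ)) ℕ ℕ) ≤ #Λ := by rw [hΛ]; exact hnames
    obtain ⟨j⟩ := h1
    have : Nonempty (Fun (RO (Po Θ ℕ)) ℕ ℕ) := ⟨rr (ρ hΛn.some)⟩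
    refine ⟨Function.invFun j, fun x => ?_⟩
    rw [eq_top_iff]
    refine le_iSup_of_le (j x) ?_
    rw [Function.leftInverse_invFun j.injective]
    intro p _
    rw [mem_eqv]
    exact fun a q _ b b' hb hb' => Fun.uniq hb hb'
  · unfold slEq
    rw [eq_top_iff]
    refine le_inf ?_ ?_
    · refine le_iSup_of_le (fun α => Sb (ρ l) (e l) α) (le_inf ?_ ?_)
      · exact le_iInf fun α => (slalomOf_Sb (ρ l) (e l) α).ge
      · refine le_iInf fun x => ?_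
        obtain ⟨α, hα⟩ := exists_lev (he l) (le_refl ℵ₀) (by rw [hcofK]; exact hinf l)
          (I := Unit) (Cardinal.mk_le_aleph0 (α := Unit)) (fun _ => x)
        refine le_iSup_of_le α ?_
        have h1 : J (inn x (Sb (ρ l) (e l) α)) ≤ ⊥ :=
          (iInf_le _ l).trans (JM_Sb (hJ l) (hα ())).le
        rw [le_bot_iff.1 h1, compl_bot]
    · refine le_iInf fun I => le_iInf fun hI => le_iInf fun s => ?_
      rw [le_himp_iff, top_inf_eq]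
      have hIc : #I < c := hI.trans (by rw [hK]; exact hfix _ (ho l))
      obtain ⟨ν, hν0, hνI, hνK, hνc⟩ : ∃ ν : Cardinal.{0}, ℵ₀ ≤ ν ∧ #I ≤ ν ∧
          ν < Order.cof (K l) ∧ ν < c := by
        refine ⟨max ℵ₀ #I, le_max_left _ _, le_max_right _ _, ?_, max_lt h0 hIc⟩
        rw [hcofK]
        exact max_lt (hinf l) (by rw [← hK]; exact hI)
      obtain ⟨α, hα⟩ := exists_lev (he l) hν0 hνK hνI s
      obtain ⟨S, hS1, hS2⟩ := common_supp (Θ := Θ) (M := ℕ) (μ := ℵ₀) (le_refl _)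
        Cardinal.mk_nat.le hν0 (I := I × ℕ × Finset ℕ) (by
          rw [Cardinal.mk_prod, Cardinal.lift_id, Cardinal.lift_id]
          exact (mul_le_mul' hνI ((Cardinal.mk_le_aleph0 (α := ℕ × Finset ℕ)).trans hν0)).trans
            (Cardinal.mul_eq_self hν0).le) (fun i => (s i.1).v i.2.1 i.2.2)
      obtain ⟨γ₀, hγ₀⟩ : ∃ γ₀ : Λ, γ₀ ∉ {l : Λ | (Sum.inr (Sum.inr l) : Θ) ∈ S} := by
        refine exists_notMem (ν := ν) (by rw [hΛ]; exact hνc) ?_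
        refine le_trans ?_ hS1
        refine Cardinal.mk_le_of_injective
          (f := fun y : {l : Λ | (Sum.inr (Sum.inr l) : Θ) ∈ S} =>
            (⟨Sum.inr (Sum.inr y.1), y.2⟩ : S)) ?_
        intro y y' h
        exact Subtype.ext (Sum.inr_injective (Sum.inr_injective (congrArg Subtype.val h)))
      let γ : Θ := Sum.inr (Sum.inr γ₀)
      have hγ : γ ∈ Γ := ⟨γ₀, rfl⟩
      have hsγ : ∀ i n b, Sp {θ | θ ≠ γ} ((s i).v n b) := by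
        intro i n b
        have h3 : Sp S ((s i).v n b) := hS2 (i, n, b)
        refine h3.mono fun θ hθ hcon => ?_
        have h4 : γ ∈ S := hcon ▸ hθ
        exact hγ₀ h4
      refine le_iSup_of_le (xe (ρ l) (e l) α γ) (le_iInf fun i => le_iInf fun l' => ?_)
      by_cases h : l' = l
      · subst h
        rw [JM_same (hJ l') (hα i)]
        exact le_top
      · exact (iInf_le _ i).trans (JM_other (hρ l l' (Ne.symm h)) (hJ l') hγ (hsγ i))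

end SLM
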