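import Pool.Agent.CpB.OneIdeal

/-!
# MP_8b2a7f_lc: monotone unbounded functions `h` (helper54): definitions and basic lemmas
-/

set_option autoImplicit false

namespace SLM

open CofSN CpB Cardinal

/-! ### The bounds -/

/-- the bounds: `ph n` off the branch, `ph (n + 1)` on the branch -/
def ph : ℕ → ℕ
  | 0 => 1
  | n + 1 => (n + 1) * ((n + 1) * (ph n + 1)) ^ (n + 1)

/-- the number of values of the generic reals at `n` -/
def NN (n : ℕ) : ℕ := (n + 1) * (ph n + 1)

theorem ph_succ (n : ℕ) : ph (n + 1) = (n + 1) * NN n ^ (n + 1) := rfl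

theorem NN_pos (n : ℕ) : 0 < NN n := Nat.mul_pos (Nat.succ_pos _) (Nat.succ_pos _)

theorem ph_lt_NN (n : ℕ) : ph n < NN n := by
  unfold NN
  calc ph n < ph n + 1 := Nat.lt_succ_self _
    _ = 1 * (ph n + 1) := (one_mul _).symm
    _ ≤ (n + 1) * (ph n + 1) := Nat.mul_le_mul_right _ (by omega)

theorem NN_le_ph (n : ℕ) : NN n ≤ ph (n + 1) := by
  rw [ph_succ]
  calc NN n = NN n ^ 1 := (pow_one _).symm
    _ ≤ NN n ^ (n + 1) := Nat.pow_le_pow_right (NN_pos n) (by omega)
    _ = 1 * NN n ^ (n + 1) := (one_mul _).symm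
    _ ≤ (n + 1) * NN n ^ (n + 1) := Nat.mul_le_mul_right _ (by omega)

theorem ph_mono : Monotone ph :=
  monotone_nat_of_le_succ fun n => ((ph_lt_NN n).trans_le (NN_le_ph n)).le

theorem le_ph (n : ℕ) : n ≤ ph n := by
  induction n with
  | zero => exact Nat.zero_le _
  | succ n ih => exact Nat.succ_le_of_lt ((ih.trans_lt (ph_lt_NN n)).trans_le (NN_le_ph n))

theorem bound1 {n a b : ℕ} (ha : a ≤ n) (hb : b ≤ n) : a * NN n ^ b ≤ ph (n + 1) := by
  rw [ph_succ]
  exact Nat.mul_le_mul (by omega) (Nat.pow_le_pow_right (NN_pos n) (by omega))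

theorem bound2 {n a : ℕ} (ha : a ≤ n) : a * ph n < NN n := by
  unfold NN
  calc a * ph n ≤ (n + 1) * ph n := Nat.mul_le_mul_right _ (by omega)
    _ < (n + 1) * (ph n + 1) := Nat.mul_lt_mul_of_pos_left (Nat.lt_succ_self _) (Nat.succ_pos _)

/-! ### Counting -/

theorem card_bad {G : Type} [Fintype G] [DecidableEq G] (N g : ℕ) (γ : G)
    (S : (G → Fin N) → Finset ℕ) (hinv : ∀ τ a, S (Function.update τ γ a) = S τ) :
    (Finset.univ.filter fun τ : G → Fin N => ((τ γ : ℕ) ∈ S τ ∧ (S τ).card ≤ g)).card * N ≤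
      g * Fintype.card (G → Fin N) := by
  classical
  let T : Finset (Σ _ : G → Fin N, ℕ) :=
    (Finset.univ : Finset (G → Fin N)).sigma fun τ => if (S τ).card ≤ g then S τ else ∅
  have hT : T.card ≤ g * Fintype.card (G → Fin N) := by
    rw [Finset.card_sigma]
    refine (Finset.sum_le_card_nsmul _ _ g fun τ _ => ?_).trans ?_
    · split_ifs with h
      · exact h
      · simp
    · rw [Finset.card_univ, smul_eq_mul, Nat.mul_comm]
  refine le_trans ?_ hT
  have h1 : ((Finset.univ.filter fun τ : G → Fin N =>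
      ((τ γ : ℕ) ∈ S τ ∧ (S τ).card ≤ g)) ×ˢ (Finset.univ : Finset (Fin N))).card ≤ T.card := by
    refine Finset.card_le_card_of_injOn
      (fun y => ⟨Function.update y.1 γ y.2, (y.1 γ : ℕ)⟩) ?_ ?_
    · rintro ⟨τ, a⟩ h
      have h2 := (Finset.mem_filter.1 (Finset.mem_product.1 (Finset.mem_coe.1 h)).1).2
      refine Finset.mem_coe.2 (Finset.mem_sigma.2 ⟨Finset.mem_univ _, ?_⟩)
      simp only [hinv]
      rw [if_pos h2.2]
      exact h2.1
    · rintro ⟨τ, a⟩ _ ⟨τ', a'⟩ _ h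
      have h3 : Function.update τ γ a = Function.update τ' γ a' := congrArg Sigma.fst h
      have h4 : ((τ γ : Fin N) : ℕ) = τ' γ := congrArg Sigma.snd h
      have h5 : a = a' := by
        have := congrFun h3 γ
        simpa using this
      have h6 : τ = τ' := by
        funext x
        by_cases hx : x = γ
        · rw [hx]
          exact Fin.ext h4
        · have := congrFun h3 x
          simpa [hx] using this
      rw [h5, h6]
  rwa [Finset.card_product, Finset.card_univ, Fintype.card_fin] at h1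

/-- an assignment outside the given small sets -/
theorem count {ι G : Type} [Fintype G] [DecidableEq G] (N g : ℕ) (D : Finset ι)
    (hD : D.card * g < N) (γ : ι → G) (S : ι → (G → Fin N) → Finset ℕ)
    (hinv : ∀ i ∈ D, ∀ τ a, S i (Function.update τ (γ i) a) = S i τ) :
    ∃ τ : G → Fin N, ∀ i ∈ D, ¬ ((τ (γ i) : ℕ) ∈ S i τ ∧ (S i τ).card ≤ g) := by
  classical
  by_contra hcon
  push Not at hcon
  have h1 : (Finset.univ : Finset (G → Fin N)) ⊆ D.biUnion fun i =>
      Finset.univ.filter fun τ : G → Fin N => ((τ (γ i) : ℕ) ∈ S i τ ∧ (S i τ).card ≤ g) := by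
    intro τ _
    obtain ⟨i, hi, h2⟩ := hcon τ
    exact Finset.mem_biUnion.2 ⟨i, hi, Finset.mem_filter.2 ⟨Finset.mem_univ _, h2⟩⟩
  have h2 := (Finset.card_le_card h1).trans Finset.card_biUnion_le
  rw [Finset.card_univ] at h2
  have hpos : 0 < Fintype.card (G → Fin N) := by
    have : Nonempty (Fin N) := ⟨⟨0, by omega⟩⟩
    exact Fintype.card_pos
  have h3 : Fintype.card (G → Fin N) * N ≤ D.card * g * Fintype.card (G → Fin N) := by
    calc Fintype.card (G → Fin N) * N
        ≤ (∑ i ∈ D, (Finset.univ.filter fun τ : G → Fin N =>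
            ((τ (γ i) : ℕ) ∈ S i τ ∧ (S i τ).card ≤ g)).card) * N := Nat.mul_le_mul_right _ h2
      _ = ∑ i ∈ D, (Finset.univ.filter fun τ : G → Fin N =>
            ((τ (γ i) : ℕ) ∈ S i τ ∧ (S i τ).card ≤ g)).card * N := by rw [Finset.sum_mul]
      _ ≤ ∑ _i ∈ D, g * Fintype.card (G → Fin N) :=
          Finset.sum_le_sum fun i hi => card_bad N g (γ i) (S i) (hinv i hi)
      _ = D.card * g * Fintype.card (G → Fin N) := by
          rw [Finset.sum_const, smul_eq_mul, Nat.mul_assoc]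
  rw [Nat.mul_comm (D.card * g)] at h3
  exact absurd (Nat.le_of_mul_le_mul_left h3 hpos) (by omega)

/-! ### Assignments of the undecided coordinates -/

section

variable {Θ : Type}

/-- the condition with the values `τ` at the coordinates `(γ, n)`, `γ ∈ G` -/
noncomputable def asg (G : Finset Θ) (n : ℕ) (τ : G → Fin (NN n)) : Po Θ ℕ where
  f x := by
    classical
    exact if h : x.1 ∈ G ∧ x.2 = n then some (τ ⟨x.1, h.1⟩ : ℕ) else none
  fin := by
    classical
    refine ((G.finite_toSet).prod (Set.finite_singleton n)).subset fun x hx => ?_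
    by_cases h : x.1 ∈ G ∧ x.2 = n
    · exact ⟨h.1, h.2⟩
    · simp [h] at hx

theorem asg_in {G : Finset Θ} {n : ℕ} (τ : G → Fin (NN n)) {x : Θ × ℕ} (h1 : x.1 ∈ G)
    (h2 : x.2 = n) : (asg G n τ).f x = some (τ ⟨x.1, h1⟩ : ℕ) := by
  simp [asg, h1, h2]

theorem asg_out {G : Finset Θ} {n : ℕ} (τ : G → Fin (NN n)) {x : Θ × ℕ}
    (h : ¬ (x.1 ∈ G ∧ x.2 = n)) : (asg G n τ).f x = none := by
  simp [asg, h]

/-- the coordinates `(γ, n)`, `γ ∈ G`, are free -/
def free (G : Finset Θ) (n : ℕ) (q : Po Θ ℕ) : Prop := ∀ θ ∈ G, q.f (θ, n) = none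

theorem ov_mono {G : Finset Θ} {n : ℕ} {τ : G → Fin (NN n)} {q q' : Po Θ ℕ} (h : q' ≤ q)
    (hf : free G n q') : Fc.ov q' (asg G n τ) ≤ Fc.ov q (asg G n τ) := by
  rintro ⟨θ, m⟩ k hk
  cases hq : q.f (θ, m) with
  | some l =>
    have h1 : (Fc.ov q (asg G n τ)).f (θ, m) = some l := by simp [Fc.ov, hq]
    rw [h1] at hk
    have h2 := h _ _ hq
    simp [Fc.ov, h2, Option.some.inj hk]
  | none =>
    have h1 : (Fc.ov q (asg G n τ)).f (θ, m) = (asg G n τ).f (θ, m) := by simp [Fc.ov, hq]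
    rw [h1] at hk
    by_cases hc : θ ∈ G ∧ m = n
    · have h2 : q'.f (θ, m) = none := by
        rw [hc.2]
        exact hf θ hc.1
      simp [Fc.ov, h2, hk]
    · rw [asg_out τ hc] at hk
      simp at hk

theorem ov_asg_le {G : Finset Θ} {n : ℕ} (τ : G → Fin (NN n)) {q : Po Θ ℕ} (hf : free G n q) :
    Fc.ov q (asg G n τ) ≤ asg G n τ := by
  refine Fc.ov_le_right ?_
  rintro ⟨θ, m⟩ k l hk hl
  by_cases hc : θ ∈ G ∧ m = n
  · rw [hc.2, hf θ hc.1] at hk
    simp at hk
  · rw [asg_out τ hc] at hl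
    simp at hl

/-- uniform decision of a name -/
theorem decide_all (G : Finset Θ) (n : ℕ) (W : Set Θ) {β : Type}
    (x : Fun (RO (Po Θ ℕ)) ℕ β) (k : ℕ) (hx : ∀ b, Sp W (x.v k b))
    (T : Finset (G → Fin (NN n))) (q : Po Θ ℕ) (hq : free G n q) :
    ∃ q' ≤ q, free G n q' ∧ (∀ y : Θ × ℕ, y.1 ∉ W → q'.f y = q.f y) ∧
      ∀ τ ∈ T, ∃ b, Fc.ov q' (asg G n τ) ∈ x.v k b := by
  classical
  induction T using Finset.induction_on with
  | empty => exact ⟨q, le_rfl, hq, fun _ _ => rfl, by simp⟩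
  | insert τ T _ ih =>
    obtain ⟨q1, hq1, hf1, hW1, hT1⟩ := ih
    obtain ⟨r, hr, b, hb⟩ := x.decide k (Fc.ov q1 (asg G n τ))
    have hb' := hx b r hb
    let Z : Set (Θ × ℕ) := {y | y.1 ∈ W ∧ ¬ (y.1 ∈ G ∧ y.2 = n)}
    let r'' := Fc.res Z r
    let q2 := Fc.ov q1 r''
    have hq2 : q2 ≤ q1 := Fc.ov_le_left _ _
    have hres : ∀ y, y ∉ Z → r''.f y = none := by
      intro y hy
      cases h : r''.f y with
      | none => rfl
      | some k => exact absurd (Fc.res_some.1 h).1 hy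
    have hf2 : free G n q2 := by
      intro θ hθ
      have h1 : r''.f (θ, n) = none := hres _ fun h => h.2 ⟨hθ, rfl⟩
      have h2 := hf1 θ hθ
      simp [q2, Fc.ov, h1, h2]
    refine ⟨q2, hq2.trans hq1, hf2, ?_, ?_⟩
    · intro y hy
      have h1 : r''.f y = none := hres _ fun h => hy h.1
      rw [← hW1 y hy]
      simp [q2, Fc.ov, h1]
    · intro τ' hτ'
      rcases Finset.mem_insert.1 hτ' with rfl | hτ'
      · refine ⟨b, RO.mem_down hb' ?_⟩
        intro y l hl
        obtain ⟨hyW, hyr⟩ := Fc.res_some.1 hl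
        by_cases hc : y.1 ∈ G ∧ y.2 = n
        · have h1 : q2.f y = none := by
            have := hf2 y.1 hc.1
            rwa [← hc.2] at this
          have h2 := asg_in τ' hc.1 hc.2
          have h3 := (hr.trans (ov_asg_le τ' hf1)) _ _ h2
          rw [hyr] at h3
          simp [Fc.ov, h1, h2, Option.some.inj h3]
        · cases h1 : q1.f y with
          | some l' =>
            have h2 := (hr.trans (Fc.ov_le_left q1 _)) _ _ h1
            rw [hyr] at h2
            simp [Fc.ov, q2, h1, Option.some.inj h2]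
          | none =>
            have h2 : r''.f y = some l := Fc.res_some.2 ⟨⟨hyW.1, hc⟩, hyr⟩
            simp [Fc.ov, q2, h1, h2]
      · obtain ⟨b', hb'⟩ := hT1 τ' hτ'
        exact ⟨b', RO.mem_down hb' (ov_mono hq2 hf2)⟩

/-- the decided value does not depend on the coordinate `γ` if the name does not -/
theorem value_indep [DecidableEq Θ] {G : Finset Θ} {n : ℕ} {q : Po Θ ℕ} {γ : G} {U : RO (Po Θ ℕ)}
    (hU : Sp {θ | θ ≠ (γ : Θ)} U) (τ : G → Fin (NN n)) (a : Fin (NN n))
    (h : Fc.ov q (asg G n τ) ∈ U) : Fc.ov q (asg G n (Function.update τ γ a)) ∈ U := by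
  refine RO.mem_down (hU _ h) ?_
  rintro ⟨θ, m⟩ k hk
  obtain ⟨h1, h2⟩ := Fc.res_some.1 hk
  have hθ : θ ≠ (γ : Θ) := h1.1
  cases hq : q.f (θ, m) with
  | some l =>
    have h3 : (Fc.ov q (asg G n τ)).f (θ, m) = some l := by simp [Fc.ov, hq]
    rw [h3] at h2
    simp [Fc.ov, hq, Option.some.inj h2]
  | none =>
    have h3 : (Fc.ov q (asg G n τ)).f (θ, m) = (asg G n τ).f (θ, m) := by simp [Fc.ov, hq]
    rw [h3] at h2
    by_cases hc : θ ∈ G ∧ m = n
    · rw [asg_in τ (x := (θ, m)) hc.1 hc.2] at h2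
      have h4 : (⟨θ, hc.1⟩ : G) ≠ γ := fun h => hθ (congrArg Subtype.val h)
      have h5 := asg_in (Function.update τ γ a) (x := (θ, m)) hc.1 hc.2
      rw [Function.update_of_ne h4] at h5
      simp [Fc.ov, hq, h5, Option.some.inj h2]
    · rw [asg_out τ hc] at h2
      simp at h2

end

end SLM
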