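import Pool.Agent.SLM.Base

/-!
# MP_8b2a7f_lc: monotone unbounded functions `h` (helper54): the ideals are proper
-/

set_option autoImplicit false

namespace SLM

open CofSN CpB Cardinal

section

variable {Θ K : Type}

/-- the generic branch -/
def rr (ρ : Θ) : Fun (RO (Po Θ ℕ)) ℕ ℕ := gs ρ fun _ m => m

/-- `n` is the code of an initial segment of the branch -/
def br (ρ : Θ) (n : ℕ) : RO (Po Θ ℕ) := ini (tl n) (rr ρ)

/-- the generic slalom at the position `α` -/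
noncomputable def SM (e : K × Bool → Θ) (α : K) : Fun (RO (Po Θ ℕ)) ℕ (Finset ℕ) :=
  gs (e (α, false)) fun n m => sig (ph (n + 1)) m

/-- the generic real at the position `α` -/
def CM (e : K × Bool → Θ) (α : K) : Fun (RO (Po Θ ℕ)) ℕ ℕ := gs (e (α, true)) fun _ m => m

/-- the bounded generic real `γ` -/
def DM (γ : Θ) : Fun (RO (Po Θ ℕ)) ℕ ℕ := gs γ fun n m => m % NN n

/-- the Boolean values of: `x(n) ∈ s(n)` and `|s(n)| ≤ ph n` -/
def innb (x : Fun (RO (Po Θ ℕ)) ℕ ℕ) (s : Fun (RO (Po Θ ℕ)) ℕ (Finset ℕ)) (n : ℕ) :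
    RO (Po Θ ℕ) :=
  ⨆ a, ⨆ S, ⨆ (_ : a ∈ S ∧ S.card ≤ ph n), x.v n a ⊓ s.v n S

theorem mem_innb {x : Fun (RO (Po Θ ℕ)) ℕ ℕ} {s : Fun (RO (Po Θ ℕ)) ℕ (Finset ℕ)} {n : ℕ}
    {p : Po Θ ℕ} : p ∈ innb x s n ↔ ∀ q ≤ p, ∃ q' ≤ q, ∃ a S, (a ∈ S ∧ S.card ≤ ph n) ∧
      q' ∈ x.v n a ∧ q' ∈ s.v n S := by
  unfold innb
  rw [RO.mem_iSup]
  constructor
  · intro h q hq
    obtain ⟨q1, hq1, a, h1⟩ := h q hq
    obtain ⟨q2, hq2, S, h2⟩ := RO.mem_iSup.1 h1 q1 le_rfl
    obtain ⟨q3, hq3, ha, h3⟩ := RO.mem_iSup.1 h2 q2 le_rfl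
    exact ⟨q3, hq3.trans (hq2.trans hq1), a, S, ha, h3.1, h3.2⟩
  · intro h q hq
    obtain ⟨q', hq', a, S, ha, h1, h2⟩ := h q hq
    refine ⟨q', hq', a, RO.mem_iSup.2 fun s hs => ⟨s, le_rfl, S, RO.mem_iSup.2 fun w hw =>
      ⟨w, le_rfl, ha, RO.mem_down h1 (hw.trans hs), RO.mem_down h2 (hw.trans hs)⟩⟩⟩

variable [LinearOrder K]

/-- indices of generators -/
inductive Gn (Θ K : Type)
  | brn : Gn Θ K
  | cap : K → Fun (RO (Po Θ ℕ)) ℕ ℕ → Gn Θ K
  | coh : K → Fun (RO (Po Θ ℕ)) ℕ (Finset ℕ) → Gn Θ K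
  | dif : Θ → Fun (RO (Po Θ ℕ)) ℕ (Finset ℕ) → Gn Θ K

/-- the names of the generators have the level of their position, or do not depend on `γ` -/
def Gn.good (e : K × Bool → Θ) (Γ : Set Θ) : Gn Θ K → Prop
  | .brn => True
  | .cap α x => lev e α x
  | .coh α s => lev e α s
  | .dif γ s => γ ∈ Γ ∧ ∀ n b, Sp {θ | θ ≠ γ} (s.v n b)

/-- the generators -/
noncomputable def Gn.val (ρ : Θ) (e : K × Bool → Θ) : Gn Θ K → ℕ → RO (Po Θ ℕ)
  | .brn, n => (br ρ n)ᶜ
  | .cap α x, n => (inn x (SM e α) n)ᶜ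
  | .coh α s, n => inn (CM e α) s n
  | .dif γ s, n => innb (DM γ) s n

/-- the condition `q` forces that `n` is not in the generator -/
def Gn.hd (ρ : Θ) (e : K × Bool → Θ) (n : ℕ) (q : Po Θ ℕ) : Gn Θ K → Prop
  | .brn => q ∈ br ρ n
  | .cap α x => ∃ a T, a ∈ T ∧ q ∈ x.v n a ∧ q ∈ (SM e α).v n T
  | .coh α s => ∃ a T, a ∉ T ∧ q ∈ (CM e α).v n a ∧ q ∈ s.v n T
  | .dif γ s => ∃ a T, ¬ (a ∈ T ∧ T.card ≤ ph n) ∧ q ∈ (DM γ).v n a ∧ q ∈ s.v n T

omit [LinearOrder K] in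
theorem Gn.hd_mono {ρ : Θ} {e : K × Bool → Θ} {n : ℕ} {q r : Po Θ ℕ} (h : r ≤ q) {g : Gn Θ K}
    (hg : g.hd ρ e n q) : g.hd ρ e n r := by
  cases g with
  | brn => exact RO.mem_down (hg : q ∈ br ρ n) h
  | cap α x =>
    obtain ⟨a, T, h1, h2, h3⟩ := hg
    exact ⟨a, T, h1, RO.mem_down h2 h, RO.mem_down h3 h⟩
  | coh α s =>
    obtain ⟨a, T, h1, h2, h3⟩ := hg
    exact ⟨a, T, h1, RO.mem_down h2 h, RO.mem_down h3 h⟩
  | dif γ s =>
    obtain ⟨a, T, h1, h2, h3⟩ := hg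
    exact ⟨a, T, h1, RO.mem_down h2 h, RO.mem_down h3 h⟩

omit [LinearOrder K] in
theorem Gn.notMem_of_hd {ρ : Θ} {e : K × Bool → Θ} {n : ℕ} {q : Po Θ ℕ} {g : Gn Θ K}
    (hg : g.hd ρ e n q) : q ∉ g.val ρ e n := by
  cases g with
  | brn =>
    intro hcon
    exact RO.mem_compl.1 hcon q le_rfl hg
  | cap α x =>
    obtain ⟨a, T, h1, h2, h3⟩ := hg
    intro hcon
    refine RO.mem_compl.1 hcon q le_rfl ?_
    exact mem_inn.2 fun r hr => ⟨r, le_rfl, a, T, h1, RO.mem_down h2 hr, RO.mem_down h3 hr⟩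
  | coh α s =>
    obtain ⟨a, T, h1, h2, h3⟩ := hg
    intro hcon
    obtain ⟨r, hr, a', T', haT, h4, h5⟩ := mem_inn.1 hcon q le_rfl
    have h6 := Fun.uniq (RO.mem_down h2 hr) h4
    have h7 := Fun.uniq (RO.mem_down h3 hr) h5
    rw [h6, h7] at h1
    exact h1 haT
  | dif γ s =>
    obtain ⟨a, T, h1, h2, h3⟩ := hg
    intro hcon
    obtain ⟨r, hr, a', T', haT, h4, h5⟩ := mem_innb.1 hcon q le_rfl
    have h6 := Fun.uniq (RO.mem_down h2 hr) h4
    have h7 := Fun.uniq (RO.mem_down h3 hr) h5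
    rw [h6, h7] at h1
    exact h1 haT

/-- the generator belongs to the position `α` -/
def Gn.at (α : K) : Gn Θ K → Prop
  | .brn => False
  | .cap β _ => β = α
  | .coh β _ => β = α
  | .dif _ _ => False

/-- the condition `q` decides the name of the generator at `n` -/
def Gn.dd (n : ℕ) (q : Po Θ ℕ) : Gn Θ K → Prop
  | .brn => True
  | .cap _ x => ∃ a, q ∈ x.v n a
  | .coh _ s => ∃ T, q ∈ s.v n T
  | .dif _ s => ∃ T, q ∈ s.v n T

omit [LinearOrder K] in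
theorem Gn.dd_mono {n : ℕ} {q r : Po Θ ℕ} (h : r ≤ q) {g : Gn Θ K}
    (hg : g.dd n q) : g.dd n r := by
  cases g with
  | brn => trivial
  | cap α x =>
    obtain ⟨a, ha⟩ := hg
    exact ⟨a, RO.mem_down ha h⟩
  | coh α s =>
    obtain ⟨a, ha⟩ := hg
    exact ⟨a, RO.mem_down ha h⟩
  | dif γ s =>
    obtain ⟨a, ha⟩ := hg
    exact ⟨a, RO.mem_down ha h⟩

/-- the names of the generators at the position `α` are decided uniformly -/
theorem Gn.exists_dd {e : K × Bool → Θ} {Γ : Set Θ} (α : K) (G : Finset Θ) (F : Finset (Gn Θ K))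
    (hF : ∀ g ∈ F, g.good e Γ) (hat : ∀ g ∈ F, g.at α) (n : ℕ) (q : Po Θ ℕ) (hq : free G n q) :
    ∃ r ≤ q, free G n r ∧ (∀ y : Θ × ℕ, y.1 ∉ Lv e α → r.f y = q.f y) ∧
      ∀ g ∈ F, ∀ τ, g.dd n (Fc.ov r (asg G n τ)) := by
  classical
  induction F using Finset.induction_on with
  | empty => exact ⟨q, le_rfl, hq, fun _ _ => rfl, by simp⟩
  | insert g F _ ih =>
    obtain ⟨r, hr, hfr, hW, h⟩ := ih (fun g hg => hF g (Finset.mem_insert_of_mem hg))
      (fun g hg => hat g (Finset.mem_insert_of_mem hg))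
    have hg1 := hF g (Finset.mem_insert_self _ _)
    have hg2 := hat g (Finset.mem_insert_self _ _)
    have h1 : ∃ r' ≤ r, free G n r' ∧ (∀ y : Θ × ℕ, y.1 ∉ Lv e α → r'.f y = r.f y) ∧
        ∀ τ, g.dd n (Fc.ov r' (asg G n τ)) := by
      cases g with
      | brn => exact absurd hg2 id
      | cap β x =>
        have hβ : β = α := hg2
        subst hβ
        obtain ⟨r', hr', h3, h4, h5⟩ := decide_all G n (Lv e β) x n (fun b => hg1 n b)
          Finset.univ r hfr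
        exact ⟨r', hr', h3, h4, fun τ => h5 τ (Finset.mem_univ _)⟩
      | coh β s =>
        have hβ : β = α := hg2
        subst hβ
        obtain ⟨r', hr', h3, h4, h5⟩ := decide_all G n (Lv e β) s n (fun b => hg1 n b)
          Finset.univ r hfr
        exact ⟨r', hr', h3, h4, fun τ => h5 τ (Finset.mem_univ _)⟩
      | dif γ s => exact absurd hg2 id
    obtain ⟨r', hr', hfr', hW', h2⟩ := h1
    refine ⟨r', hr'.trans hr, hfr', fun y hy => (hW' y hy).trans (hW y hy), fun g' hg' τ => ?_⟩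
    rcases Finset.mem_insert.1 hg' with rfl | hg'
    · exact h2 τ
    · exact Gn.dd_mono (ov_mono hr' hfr') (h g' hg' τ)

/-- one position is treated -/
theorem Gn.step {ρ : Θ} {e : K × Bool → Θ} (he : Function.Injective e) {Γ : Set Θ} (α : K)
    (G : Finset Θ) (hG : ∀ y, e y ∉ G) (F : Finset (Gn Θ K)) (hF : ∀ g ∈ F, g.good e Γ)
    (hat : ∀ g ∈ F, g.at α) {n : ℕ} (hn : F.card ≤ n) (hn' : G.card ≤ n) (q : Po Θ ℕ)
    (hfq : free G n q) (hq : ∀ b, q.f (e (α, b), n) = none) :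
    ∃ q' ≤ q, free G n q' ∧ (∀ g ∈ F, ∀ τ, g.hd ρ e n (Fc.ov q' (asg G n τ))) ∧
      ∀ β, α < β → ∀ b m, q'.f (e (β, b), m) = q.f (e (β, b), m) := by
  classical
  obtain ⟨u, hu, hfu, hW, hdd⟩ := Gn.exists_dd α G F hF hat n q hfq
  have huf : ∀ β, α ≤ β → ∀ b m, u.f (e (β, b), m) = q.f (e (β, b), m) := by
    intro β hβ b m
    exact hW (e (β, b), m) fun h => h β b hβ rfl
  -- the values
  have hval : ∀ (g : Gn Θ K) (τ : G → Fin (NN n)), ∃ a : ℕ, ∃ T : Finset ℕ, g ∈ F →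
      (match g with
      | .brn => True
      | .cap _ x => Fc.ov u (asg G n τ) ∈ x.v n a
      | .coh _ s => Fc.ov u (asg G n τ) ∈ s.v n T
      | .dif _ _ => True) := by
    intro g τ
    by_cases hg : g ∈ F
    · have h1 := hdd g hg τ
      cases g with
      | brn => exact ⟨0, ∅, fun _ => trivial⟩
      | cap β x =>
        obtain ⟨a, ha⟩ := h1
        exact ⟨a, ∅, fun _ => ha⟩
      | coh β s =>
        obtain ⟨T, hT⟩ := h1
        exact ⟨0, T, fun _ => hT⟩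
      | dif γ s => exact ⟨0, ∅, fun _ => trivial⟩
    · exact ⟨0, ∅, fun h => absurd h hg⟩
  choose va vT hv using hval
  let SV : Finset ℕ := (F ×ˢ (Finset.univ : Finset (G → Fin (NN n)))).image fun y => va y.1 y.2
  have hSV : SV.card ≤ ph (n + 1) := by
    refine Finset.card_image_le.trans ?_
    rw [Finset.card_product, Finset.card_univ, Fintype.card_fun, Fintype.card_fin,
      Fintype.card_coe]
    exact bound1 hn hn'
  obtain ⟨m1, hm1⟩ := sig_surj (ph (n + 1)) SV hSV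
  obtain ⟨m2, hm2⟩ : ∃ m2, m2 ∉ (F ×ˢ (Finset.univ : Finset (G → Fin (NN n)))).biUnion
      fun y => vT y.1 y.2 := Infinite.exists_notMem_finset _
  let q1 := Fc.ov u (Fc.one (e (α, false), n) m1)
  let q2 := Fc.ov q1 (Fc.one (e (α, true), n) m2)
  have hq1 : q1 ≤ u := Fc.ov_le_left _ _
  have hq2 : q2 ≤ q1 := Fc.ov_le_left _ _
  have hne : ((e (α, true), n) : Θ × ℕ) ≠ (e (α, false), n) := by
    intro h
    have h1 := he (Prod.mk.inj h).1
    simp at h1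
  have hf1 : q1.f (e (α, false), n) = some m1 := by
    have h1 : u.f (e (α, false), n) = none := by rw [huf α le_rfl, hq]
    have h2 : (Fc.one (e (α, false), n) m1 : Po Θ ℕ).f (e (α, false), n) = some m1 :=
      Fc.one_some.2 ⟨rfl, rfl⟩
    simp [q1, Fc.ov, h1, h2]
  have hone : ∀ (x y : Θ × ℕ) (m : ℕ), y ≠ x → (Fc.one x m : Po Θ ℕ).f y = none := by
    intro x y m hxy
    simp [Fc.one, hxy]
  have hf2 : q2.f (e (α, true), n) = some m2 := by
    have h1 : u.f (e (α, true), n) = none := by rw [huf α le_rfl, hq]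
    have h2 : q1.f (e (α, true), n) = none := by
      simp [q1, Fc.ov, h1, hone _ _ m1 hne]
    have h3 : (Fc.one (e (α, true), n) m2 : Po Θ ℕ).f (e (α, true), n) = some m2 :=
      Fc.one_some.2 ⟨rfl, rfl⟩
    simp [q2, Fc.ov, h2, h3]
  have hfree : free G n q2 := by
    intro θ hθ
    have h1 : ∀ b, ((θ, n) : Θ × ℕ) ≠ (e (α, b), n) := by
      intro b h
      exact hG (α, b) ((Prod.mk.inj h).1 ▸ hθ)
    have h2 := hfu θ hθ
    have h3 : q1.f (θ, n) = none := by simp [q1, Fc.ov, h2, hone _ _ m1 (h1 false)]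
    simp [q2, Fc.ov, h3, hone _ _ m2 (h1 true)]
  refine ⟨q2, hq2.trans (hq1.trans hu), hfree, ?_, ?_⟩
  · intro g hg τ
    have h1 := hv g τ hg
    have h3 := hat g hg
    have hmem : (g, τ) ∈ F ×ˢ (Finset.univ : Finset (G → Fin (NN n))) :=
      Finset.mem_product.2 ⟨hg, Finset.mem_univ _⟩
    have hle : Fc.ov q2 (asg G n τ) ≤ Fc.ov u (asg G n τ) := ov_mono (hq2.trans hq1) hfree
    have hle2 : Fc.ov q2 (asg G n τ) ≤ q2 := Fc.ov_le_left _ _
    cases g with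
    | brn => exact absurd h3 id
    | cap β x =>
      have h4 : β = α := h3
      subst h4
      exact ⟨va (.cap β x) τ, SV, Finset.mem_image.2 ⟨(.cap β x, τ), hmem, rfl⟩,
        RO.mem_down h1 hle, mem_gs (hle2 _ _ (hq2 _ _ hf1)) hm1⟩
    | coh β s =>
      have h4 : β = α := h3
      subst h4
      exact ⟨m2, vT (.coh β s) τ, fun h => hm2 (Finset.mem_biUnion.2 ⟨_, hmem, h⟩),
        mem_gs (hle2 _ _ hf2) rfl, RO.mem_down h1 hle⟩
    | dif γ s => exact absurd h3 id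
  · intro β hβ b m
    have h1 : ∀ b', ((e (β, b), m) : Θ × ℕ) ≠ (e (α, b'), n) := by
      intro b' h
      have h2 := he (Prod.mk.inj h).1
      exact hβ.ne' (Prod.mk.inj h2).1
    have h2 : q1.f (e (β, b), m) = u.f (e (β, b), m) := by
      simp [q1, Fc.ov, hone _ _ m1 (h1 false)]
    have h3 : q2.f (e (β, b), m) = q1.f (e (β, b), m) := by
      simp [q2, Fc.ov, hone _ _ m2 (h1 true)]
    rw [h3, h2, huf β hβ.le]

/-- all positions are treated -/
theorem Gn.handle {ρ : Θ} {e : K × Bool → Θ} (he : Function.Injective e) {Γ : Set Θ}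
    (G : Finset Θ) (hG : ∀ y, e y ∉ G) (F : Finset (Gn Θ K)) (hF : ∀ g ∈ F, g.good e Γ)
    {n : ℕ} (hn : F.card ≤ n) (hn' : G.card ≤ n) (Λ : Finset K) :
    ∀ p : Po Θ ℕ, free G n p → (∀ α ∈ Λ, ∀ b, p.f (e (α, b), n) = none) →
    ∃ q ≤ p, free G n q ∧
      (∀ g ∈ F, ∀ α ∈ Λ, g.at α → ∀ τ, g.hd ρ e n (Fc.ov q (asg G n τ))) ∧
      ∀ β, (∀ α ∈ Λ, α < β) → ∀ b m, q.f (e (β, b), m) = p.f (e (β, b), m) := by
  classical
  induction Λ using Finset.induction_on_max with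
  | empty => exact fun p hp _ => ⟨p, le_rfl, hp, by simp, fun _ _ _ _ => rfl⟩
  | insert α Λ hα ih =>
    intro p hfp hp
    obtain ⟨q, hq, hfq, h1, h2⟩ := ih p hfp fun β hβ b => hp β (Finset.mem_insert_of_mem hβ) b
    obtain ⟨q', hq', hfq', h3, h4⟩ := Gn.step (ρ := ρ) he α G hG (F.filter fun g => g.at α)
      (fun g hg => hF g (Finset.mem_filter.1 hg).1) (fun g hg => (Finset.mem_filter.1 hg).2)
      ((Finset.card_filter_le _ _).trans hn) hn' q hfq
      (fun b => by rw [h2 α hα]; exact hp α (Finset.mem_insert_self _ _) b)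
    refine ⟨q', hq'.trans hq, hfq', ?_, ?_⟩
    · intro g hg β hβ hat τ
      rcases Finset.mem_insert.1 hβ with rfl | hβ
      · exact h3 g (Finset.mem_filter.2 ⟨hg, hat⟩) τ
      · exact Gn.hd_mono (ov_mono hq' hfq') (h1 g hg β hβ hat τ)
    · intro β hβ b m
      rw [h4 β (hβ α (Finset.mem_insert_self _ _)), h2 β fun γ hγ =>
        hβ γ (Finset.mem_insert_of_mem hγ)]

/-- the slow slaloms are decided uniformly -/
theorem exists_dif (G : Finset Θ) (D : Finset (Θ × Fun (RO (Po Θ ℕ)) ℕ (Finset ℕ)))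
    (n : ℕ) (q : Po Θ ℕ) (hq : free G n q) :
    ∃ r ≤ q, free G n r ∧ ∀ d ∈ D, ∀ τ, ∃ T, Fc.ov r (asg G n τ) ∈ d.2.v n T := by
  classical
  induction D using Finset.induction_on with
  | empty => exact ⟨q, le_rfl, hq, by simp⟩
  | insert d D _ ih =>
    obtain ⟨r, hr, hfr, h⟩ := ih
    obtain ⟨r', hr', h3, _, h5⟩ := decide_all G n Set.univ d.2 n
      (fun b p hp => RO.mem_down hp (by
        intro y k hk
        exact Fc.res_some.2 ⟨⟨trivial, trivial⟩, hk⟩)) Finset.univ r hfr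
    refine ⟨r', hr'.trans hr, h3, fun d' hd' τ => ?_⟩
    rcases Finset.mem_insert.1 hd' with rfl | hd'
    · exact h5 τ (Finset.mem_univ _)
    · obtain ⟨T, hT⟩ := h d' hd' τ
      exact ⟨T, RO.mem_down hT (ov_mono hr' h3)⟩

/-! ### The branch is extended -/

/-- the first `m` values of the branch, where unknown values become `0` -/
def bl (ρ : Θ) (p : Po Θ ℕ) (m : ℕ) : List ℕ :=
  (List.range m).map fun i => (p.f (ρ, i)).getD 0

theorem bl_length (ρ : Θ) (p : Po Θ ℕ) (m : ℕ) : (bl ρ p m).length = m := by simp [bl]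

theorem exists_branch (ρ : Θ) (p : Po Θ ℕ) (m : ℕ) :
    ∃ q ≤ p, q ∈ ini (bl ρ p m) (rr ρ) ∧ ∀ θ, θ ≠ ρ → ∀ k, q.f (θ, k) = p.f (θ, k) := by
  classical
  let z : Po Θ ℕ :=
    { f := fun x => if x.1 = ρ ∧ x.2 < m then some 0 else none
      fin := by
        refine ((Set.finite_singleton ρ).prod (Set.finite_Iio m)).subset fun x hx => ?_
        by_cases h : x.1 = ρ ∧ x.2 < m
        · exact ⟨h.1, h.2⟩
        · simp [h] at hx }
  refine ⟨Fc.ov p z, Fc.ov_le_left _ _, ?_, ?_⟩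
  · rw [mem_ini]
    rintro ⟨i, hi⟩
    have hi' : i < m := by rwa [bl_length] at hi
    have h1 : (Fc.ov p z).f (ρ, i) = some ((p.f (ρ, i)).getD 0) := by
      cases h : p.f (ρ, i) with
      | none => simp [Fc.ov, h, z, hi']
      | some k => simp [Fc.ov, h]
    have h2 : (bl ρ p m)[i] = (p.f (ρ, i)).getD 0 := by simp [bl]
    change Fc.ov p z ∈ (rr ρ).v i ((bl ρ p m)[i])
    rw [h2]
    exact mem_gs h1 rfl
  · intro θ hθ k
    have h1 : z.f (θ, k) = none := by simp [z, hθ]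
    simp [Fc.ov, h1]

theorem exists_code (ρ : Θ) (p : Po Θ ℕ) (N : ℕ) : ∃ m, N ≤ cd (bl ρ p m) := by
  have hinj : Function.Injective fun m => cd (bl ρ p m) := by
    intro m m' h
    have h1 : bl ρ p m = bl ρ p m' := (Denumerable.eqv (List ℕ)).injective h
    have h2 := congrArg List.length h1
    rwa [bl_length, bl_length] at h2
  obtain ⟨_, ⟨m, rfl⟩, hm⟩ := (Set.infinite_range_of_injective hinj).exists_gt N
  exact ⟨m, hm.le⟩

/-! ### The ideal is proper -/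

/-- the set of the pairs `(γ, s)` of the generators `dif γ s` -/
def Gn.pr : Gn Θ K → Option (Θ × Fun (RO (Po Θ ℕ)) ℕ (Finset ℕ))
  | .dif γ s => some (γ, s)
  | _ => none

/-- the position of a generator -/
def Gn.ps : Gn Θ K → Option K
  | .cap α _ => some α
  | .coh α _ => some α
  | _ => none

theorem Gn.proper {ρ : Θ} {e : K × Bool → Θ} (he : Function.Injective e) {Γ : Set Θ}
    (hρe : ∀ y, e y ≠ ρ) (hΓe : ∀ y, e y ∉ Γ) (hρΓ : ρ ∉ Γ)
    (F : Finset {g : Gn Θ K // g.good e Γ}) (N : ℕ) :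
    (⨅ n, ⨅ (_ : N ≤ n), ⨆ g ∈ F, g.1.val ρ e n) = ⊥ := by
  classical
  refine le_antisymm (fun p hp => ?_) bot_le
  obtain ⟨N', hN'⟩ := exists_free_all p
  let F' : Finset (Gn Θ K) := F.image Subtype.val
  have hF' : ∀ g ∈ F', g.good e Γ := by
    intro g hg
    obtain ⟨g', _, rfl⟩ := Finset.mem_image.1 hg
    exact g'.2
  let D : Finset (Θ × Fun (RO (Po Θ ℕ)) ℕ (Finset ℕ)) := F'.biUnion fun g => g.pr.toFinset
  have hD : ∀ d, d ∈ D ↔ Gn.dif d.1 d.2 ∈ F' := by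
    intro d
    simp only [D, Finset.mem_biUnion, Option.mem_toFinset, Option.mem_def]
    constructor
    · rintro ⟨g, hg, h⟩
      cases g with
      | brn => simp [Gn.pr] at h
      | cap α x => simp [Gn.pr] at h
      | coh α x => simp [Gn.pr] at h
      | dif γ s =>
        have h1 : (γ, s) = d := by simpa [Gn.pr] using h
        rw [← h1]
        exact hg
    · intro h
      exact ⟨_, h, rfl⟩
  let G : Finset Θ := D.image Prod.fst
  have hGΓ : ∀ θ ∈ G, θ ∈ Γ := by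
    intro θ hθ
    obtain ⟨d, hd, rfl⟩ := Finset.mem_image.1 hθ
    exact (hF' _ ((hD d).1 hd)).1
  let Λ : Finset K := F'.biUnion fun g => g.ps.toFinset
  let B := max N (max N' (max F'.card (max G.card D.card)))
  obtain ⟨m, hm⟩ := exists_code ρ p B
  let n := cd (bl ρ p m)
  have hnN : N ≤ n := le_trans (le_max_left _ _) hm
  have hnN' : N' ≤ n := le_trans (le_trans (le_max_left _ _) (le_max_right _ _)) hm
  have hnF : F'.card ≤ n :=
    le_trans (le_trans (le_trans (le_max_left _ _) (le_max_right _ _)) (le_max_right _ _)) hm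
  have hnG : G.card ≤ n :=
    le_trans (le_trans (le_trans (le_trans (le_max_left _ _) (le_max_right _ _))
      (le_max_right _ _)) (le_max_right _ _)) hm
  have hnD : D.card ≤ n :=
    le_trans (le_trans (le_trans (le_trans (le_max_right _ _) (le_max_right _ _))
      (le_max_right _ _)) (le_max_right _ _)) hm
  obtain ⟨p1, hp1, hbr, hp1f⟩ := exists_branch ρ p m
  have hbr' : p1 ∈ br ρ n := by
    unfold br
    rw [tl_cd]
    exact hbr
  have hfree1 : free G n p1 := by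
    intro θ hθ
    rw [hp1f θ (fun h => hρΓ (h ▸ hGΓ θ hθ)), hN' θ n hnN']
  obtain ⟨q, hq, hfq, h1, _⟩ := Gn.handle (ρ := ρ) he G (fun y hy => hΓe y (hGΓ _ hy)) F' hF'
    hnF hnG Λ p1 hfree1 (fun α _ b => by rw [hp1f _ (hρe _), hN' _ n hnN'])
  obtain ⟨r, hr, hfr, h2⟩ := exists_dif G D n q hfq
  have hS : ∀ (d : Θ × Fun (RO (Po Θ ℕ)) ℕ (Finset ℕ)) (τ : G → Fin (NN n)),
      ∃ T : Finset ℕ, d ∈ D → Fc.ov r (asg G n τ) ∈ d.2.v n T := by
    intro d τ
    by_cases hd : d ∈ D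
    · obtain ⟨T, hT⟩ := h2 d hd τ
      exact ⟨T, fun _ => hT⟩
    · exact ⟨∅, fun h => absurd h hd⟩
  choose S hS using hS
  have hDG : ∀ d : D, d.1.1 ∈ G := fun d => Finset.mem_image_of_mem _ d.2
  obtain ⟨τ, hτ⟩ := count (NN n) (ph n) (Finset.univ : Finset D)
    (by rw [Finset.card_univ, Fintype.card_coe]; exact bound2 hnD)
    (fun d : D => (⟨d.1.1, hDG d⟩ : G)) (fun d τ => S d.1 τ) (by
      intro d _ τ a
      have h3 := hS d.1 τ d.2
      have h4 := hS d.1 (Function.update τ ⟨d.1.1, hDG d⟩ a) d.2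
      have h5 := value_indep (γ := (⟨d.1.1, hDG d⟩ : G))
        ((hF' _ ((hD d.1).1 d.2)).2 n _) τ a h3
      exact Fun.uniq h4 h5)
  let w := Fc.ov r (asg G n τ)
  have hwr : w ≤ r := Fc.ov_le_left _ _
  have hhd : ∀ g ∈ F', g.hd ρ e n w := by
    intro g hg
    have hwq : w ≤ Fc.ov q (asg G n τ) := ov_mono hr hfr
    cases hgc : g with
    | brn => exact RO.mem_down hbr' (hwr.trans (hr.trans hq))
    | cap α x =>
      rw [hgc] at hg
      have hα : α ∈ Λ := Finset.mem_biUnion.2 ⟨_, hg, by simp [Gn.ps]⟩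
      exact Gn.hd_mono hwq (h1 _ hg α hα rfl τ)
    | coh α s =>
      rw [hgc] at hg
      have hα : α ∈ Λ := Finset.mem_biUnion.2 ⟨_, hg, by simp [Gn.ps]⟩
      exact Gn.hd_mono hwq (h1 _ hg α hα rfl τ)
    | dif γ s =>
      rw [hgc] at hg
      have hd : (γ, s) ∈ D := (hD (γ, s)).2 hg
      have hγ : γ ∈ G := Finset.mem_image_of_mem Prod.fst hd
      have h3 := hτ ⟨(γ, s), hd⟩ (Finset.mem_univ _)
      refine ⟨τ ⟨γ, hγ⟩, S (γ, s) τ, h3, ?_, hS (γ, s) τ hd⟩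
      have h4 : w.f (γ, n) = some (τ ⟨γ, hγ⟩ : ℕ) :=
        ov_asg_le τ hfr _ _ (asg_in τ (x := (γ, n)) hγ rfl)
      exact mem_gs h4 (Nat.mod_eq_of_lt (τ ⟨γ, hγ⟩).2)
  have hwp : w ≤ p := hwr.trans (hr.trans (hq.trans hp1))
  have h3 := RO.mem_iInf.1 (RO.mem_iInf.1 hp n) hnN
  obtain ⟨v, hv, g, h4⟩ := RO.mem_iSup.1 h3 w hwp
  obtain ⟨v', hv', hg, h5⟩ := RO.mem_iSup.1 h4 v le_rfl
  exact absurd h5 (Gn.notMem_of_hd (Gn.hd_mono (hv'.trans hv)
    (hhd g.1 (Finset.mem_image_of_mem _ hg))))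

end

end SLM
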